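import Pool.Agent.NPC.Classes
import Pool.Agent.NPC.Dec
import Pool.Agent.Y403.PP.Btw

set_option autoImplicit false

/-!
# Partitioned probe recognition is NP-hard for every class of graphs between the perfect graphs and
the graphs without induced cycles of length 5, 9 and 11

In particular for the perfect graphs and for the graphs without odd holes.
-/

namespace Pool.Agent.Results.MP_96e1cb_lc.BetweenPerfectAndOddHoleFree

open Pool.Agent.NPC Pool.Agent.H418R2.Perf Pool.Agent.Y403.PP

/-- The graph has no odd hole (no induced cycle of odd length at least `5`). -/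
def OddHoleFree {n : ℕ} (G : SimpleGraph (Fin n)) : Prop :=
  ∀ l, 2 ≤ l → IsEmpty (SimpleGraph.cycleGraph (2 * l + 1) ↪g G)

/-- For every class `C` of graphs that contains all perfect graphs and contains no graph with an
induced cycle of length `5`, `9` or `11`, the recognition of partitioned probe `C` graphs is
`NP`-hard; and so `P = NP` if it can be done in polynomial time. Both the class of perfect graphs
and the class of graphs without odd holes satisfy the assumption. -/
theorem result :
    (∀ C : ∀ n : ℕ, SimpleGraph (Fin n) → Prop,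
      (∀ n (G : SimpleGraph (Fin n)), Perfect G → C n G) →
      (∀ n (G : SimpleGraph (Fin n)), C n G → ∀ l, l = 5 ∨ l = 9 ∨ l = 11 →
        IsEmpty (SimpleGraph.cycleGraph l ↪g G)) →
      NPHardP (PartitionedProbe C) ∧
      (InPP (PartitionedProbe C) → ∀ L : Set (List Bool), InNP L → InP L)) ∧
    (NPHardP (PartitionedProbe (fun _ G => Perfect G)) ∧
      (InPP (PartitionedProbe (fun _ G => Perfect G)) → ∀ L : Set (List Bool), InNP L → InP L)) ∧
    (NPHardP (PartitionedProbe (fun _ G => OddHoleFree G)) ∧
      (InPP (PartitionedProbe (fun _ G => OddHoleFree G)) →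
        ∀ L : Set (List Bool), InNP L → InP L)) := by
  have key : ∀ C : ∀ n : ℕ, SimpleGraph (Fin n) → Prop,
      (∀ n (G : SimpleGraph (Fin n)), Perfect G → C n G) →
      (∀ n (G : SimpleGraph (Fin n)), C n G → ∀ l, l = 5 ∨ l = 9 ∨ l = 11 →
        IsEmpty (SimpleGraph.cycleGraph l ↪g G)) →
      NPHardP (PartitionedProbe C) ∧
      (InPP (PartitionedProbe C) → ∀ L : Set (List Bool), InNP L → InP L) := by
    intro C hP hN
    have h := hard hP hN
    exact ⟨h, fun h' => NPHard.collapse h h'⟩
  refine ⟨key, key _ (fun _ _ h => h) ?_, key _ ?_ ?_⟩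
  · intro n G h l hl
    rcases hl with rfl | rfl | rfl
    · exact noOddHole_of_perfect h 2 (by omega)
    · exact noOddHole_of_perfect h 4 (by omega)
    · exact noOddHole_of_perfect h 5 (by omega)
  · intro n G h l hl
    exact noOddHole_of_perfect h l hl
  · intro n G h l hl
    rcases hl with rfl | rfl | rfl
    · exact h 2 (by omega)
    · exact h 4 (by omega)
    · exact h 5 (by omega)

end Pool.Agent.Results.MP_96e1cb_lc.BetweenPerfectAndOddHoleFree
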